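import Pool.Agent.PCO.StmtsA

/-!
# PCO squad: row BF3 (support functionals of boxes)
-/

set_option autoImplicit false

open Matrix Filter Topology

namespace Pool.Agent.PCO.H19

open Pool.Agent.PFS Pool.Agent.PFJ Pool.Agent.PCO

variable {n : ℕ} {C : Set (V n)} {Γ : Subgroup (GL (Fin n) ℝ)}

theorem exists_sup (hbxc : BxcStmt) (hC : CC C Γ) {U : Submodule ℝ (V n)} {v : V n}
    (hB : Bx C Γ U v) {a : V n} (ha : Bd C U a) :
    ∃ ψ : (V n) →ₗ[ℝ] ℝ, Sup C U a ψ ∧ (∀ x ∈ closure C, 0 ≤ ψ x) ∧ ψ v = 0 := by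
  obtain ⟨e, he, e', he', hp⟩ := hB.pes
  have hbox := (hbxc n C Γ hC U v).1 hB e he e' he' hp
  have hP : PCone C := hC.toPCone
  obtain ⟨φ, hφ1, hφ2, hφ3⟩ := Pool.Agent.PFJ.H82.supF n C Γ hP 3 (bL U v) ![e, e', v] bB hbox
    (fun i => hp.1.cl i) 0 a ha.1 ha.2.1 ha.2.2.2
  obtain ⟨ψ, hψ1, hψ2, hψ3⟩ := Pool.Agent.PFJ.H82.psiF n C Γ hP 3 (bL U v) ![e, e', v] bB hbox
    0 φ (fun x _ hx => hφ1 x hx)
  have hU : ∀ x ∈ U, ψ x = φ x := fun x hx => hψ2 x hx
  refine ⟨ψ, ⟨fun y _ hy => hψ1 y hy, ?_, ?_⟩, hψ1, ?_⟩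
  · rw [hU a ha.1, hφ2]
  · intro y hy
    rw [hU y hy.1]
    exact hφ3 y hy
  · exact hψ3 1 (by decide) v (Submodule.mem_span_singleton_self v)

theorem bf3 (hbxc : BxcStmt) (hbf1 : Bf1Stmt) (hbf2 : Bf2Stmt) : Bf3Stmt := by
  intro n C Γ hC hK U v hB
  have hP : PCone C := hC.toPCone
  obtain ⟨-, hvcl, hv0, -, hstr, -, ⟨f, hf⟩, -, -⟩ := hbf1 n C Γ hC hK U v hB
  have h1 : ∀ a, Bd C U a → ∃ ψ : (V n) →ₗ[ℝ] ℝ, Sup C U a ψ ∧
      (∀ x ∈ closure C, 0 ≤ ψ x) ∧ ψ v = 0 := fun a ha => exists_sup hbxc hC hB ha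
  refine ⟨h1, ?_, ?_, ?_, ?_⟩
  · -- a functional which is one at `v` and zero on `U`
    obtain ⟨e, he, e', he', hp⟩ := hB.pes
    have hbox := (hbxc n C Γ hC U v).1 hB e he e' he' hp
    obtain ⟨i, hi⟩ : ∃ i, v i ≠ 0 := by
      by_contra hcon
      push Not at hcon
      exact hv0 (funext hcon)
    set χ : (V n) →ₗ[ℝ] ℝ := (v i)⁻¹ • LinearMap.proj i with hχ
    have hχv : χ v = 1 := by
      simp [hχ, hi]
    have hχpos : ∀ x ∈ bL U v 1, x ∈ closure C → 0 ≤ χ x := by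
      intro x hx hxc
      have hx' : x ∈ Submodule.span ℝ {v} := hx
      obtain ⟨c, rfl⟩ := Submodule.mem_span_singleton.mp hx'
      rw [map_smul, hχv, smul_eq_mul, mul_one]
      by_contra hc
      push Not at hc
      have h2 : -(c • v) ∈ closure C := by
        rw [← neg_smul]
        exact hP.cl_smul hvcl (by linarith)
      have h3 := hP.salient _ hxc h2
      rcases smul_eq_zero.mp h3 with h4 | h4
      · linarith
      · exact hv0 h4
    obtain ⟨ψ, hψ1, hψ2, hψ3⟩ := Pool.Agent.PFJ.H82.psiF n C Γ hP 3 (bL U v) ![e, e', v] bB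
      hbox 1 χ hχpos
    refine ⟨ψ, hψ1, ?_, ?_⟩
    · intro y hy
      exact hψ3 0 (by decide) y hy
    · rw [hψ2 v (Submodule.mem_span_singleton_self v), hχv]
  · intro ν hν x hx
    obtain ⟨M, hM, hMx⟩ := hP.absorb hx v
    have h2 := hν.pos _ (subset_closure hMx)
    rw [map_sub, map_smul, hν.one, smul_eq_mul] at h2
    by_contra hcon
    push Not at hcon
    nlinarith
  · intro a ψ ha hψ y hy hyc hay
    have h2 := hψ.unt _ (hstr a ha.1 y hy ha.2.1 hyc hay)
    rw [map_add, hψ.at_, zero_add] at h2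
    exact h2
  · intro y hy hall
    by_contra hny
    set T : Set ℝ := {t : ℝ | 0 ≤ t ∧ y + t • f ∈ closure C} with hT
    have hTcl : IsClosed T := by
      have hc : Continuous (fun t : ℝ => y + t • f) := by fun_prop
      exact (isClosed_le continuous_const continuous_id).inter (isClosed_closure.preimage hc)
    have hTne : T.Nonempty := by
      obtain ⟨M, hM, hMf⟩ := hf.2.2 (-y) (U.neg_mem hy)
      refine ⟨M, hM.le, ?_⟩
      have h3 : M • f - -y = y + M • f := by abel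
      rwa [h3] at hMf
    have hTbd : BddBelow T := ⟨0, fun t ht => ht.1⟩
    have ht0 : sInf T ∈ T := hTcl.csInf_mem hTne hTbd
    set t0 := sInf T with ht0def
    have ht0pos : 0 < t0 := by
      rcases ht0.1.eq_or_lt with h | h
      · exfalso
        apply hny
        have h3 := ht0.2
        rw [← h, zero_smul, add_zero] at h3
        exact h3
      · exact h
    set e0 := y + t0 • f with he0
    have he0U : e0 ∈ U := U.add_mem hy (U.smul_mem _ hf.1)
    have he0c : e0 ∈ closure C := ht0.2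
    have hnu : ¬ Unt C U e0 := by
      intro hu
      obtain ⟨ε, hε, hεu⟩ := (Pool.Agent.PFJ.H76.unf n C hP U e0 hu).2.2.2.1 f hf.1
      have hmem : t0 - min ε t0 ∈ T := by
        refine ⟨by linarith [min_le_right ε t0], ?_⟩
        have h3 : y + (t0 - min ε t0) • f = (e0 - ε • f) + (ε - min ε t0) • f := by
          rw [he0]; module
        rw [h3]
        exact hP.cl_add hεu.2.1 (hP.cl_smul hf.2.1 (by linarith [min_le_left ε t0]))
      have h4 : t0 ≤ t0 - min ε t0 := csInf_le hTbd hmem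
      have h5 : 0 < min ε t0 := lt_min hε ht0pos
      linarith
    have hyeq : y = e0 - t0 • f := by rw [he0]; abel
    by_cases hz : e0 = 0
    · obtain ⟨c, hc, -⟩ := (hbf2 n C Γ hC hK U v hB).2.2.2.1 0 0
      obtain ⟨ψ, hψ, -, -⟩ := h1 c hc
      have h3 := hall c ψ hc hψ
      rw [hyeq, hz, zero_sub, map_neg, map_smul, smul_eq_mul] at h3
      have h4 := hψ.unt f hf
      nlinarith
    · have hbd : Bd C U e0 := ⟨he0U, he0c, hz, hnu⟩
      obtain ⟨ψ, hψ, -, -⟩ := h1 e0 hbd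
      have h3 := hall e0 ψ hbd hψ
      rw [hyeq, map_sub, hψ.at_, zero_sub, map_smul, smul_eq_mul] at h3
      have h4 := hψ.unt f hf
      nlinarith

end Pool.Agent.PCO.H19
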