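import Pool.Agent.PCO.StmtsA

/-!
# PCO squad: row FFP (first failure)
-/

set_option autoImplicit false

open Matrix Filter Topology

namespace Pool.Agent.PCO.H19

open Pool.Agent.PFS Pool.Agent.PFJ Pool.Agent.PCO

theorem ffp (hwbf : WbfStmt) (hbf1 : Bf1Stmt) (hwbl : WblStmt) (htrf : TrfStmt)
    (hzne : ZneStmt) : FfpStmt := by
  intro n C Γ d hyp U v Um vm hB hd hBm hdm hlim hv f c ε hfU hfc hcU hcc hunit hε
  have hC : CC C Γ := hyp.toCC
  have hP : PCone C := hC.toPCone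
  obtain ⟨-, hvcl, -, -, -, hiff, -, -, -⟩ := hbf1 n C Γ hC hyp.maxc U v hB
  set P : ℕ → V n := fun j => f + (2 : ℝ) ^ j • c + (1 + (2 : ℝ) ^ j * ε) • v with hPdef
  have hpow : ∀ j : ℕ, (1 : ℝ) ≤ (2 : ℝ) ^ j := fun j => one_le_pow₀ (by norm_num)
  have hunt : ∀ j : ℕ, Unt C U (f + (2 : ℝ) ^ j • c) := by
    intro j
    refine (Pool.Agent.PFJ.H76.unf n C hP U _ hunit).2.1 _
      (U.add_mem hfU (U.smul_mem _ hcU)) ?_
    have h1 : f + (2 : ℝ) ^ j • c - (f + c) = ((2 : ℝ) ^ j - 1) • c := by module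
    rw [h1]
    exact hP.cl_smul hcc (by linarith [hpow j])
  have hτ : ∀ j : ℕ, 0 < 1 + (2 : ℝ) ^ j * ε := by
    intro j
    have := hpow j
    positivity
  have hPC : ∀ j, P j ∈ C := fun j =>
    (hiff _ (U.add_mem hfU (U.smul_mem _ hcU)) _).mpr ⟨hunt j, hτ j⟩
  have hstep : ∀ j, P (j + 1) - P j ∈ closure C := by
    intro j
    have h1 : P (j + 1) - P j = (2 : ℝ) ^ j • c + ((2 : ℝ) ^ j * ε) • v := by
      simp only [hPdef, pow_succ]; module
    rw [h1]
    have := hpow j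
    exact hP.cl_add (hP.cl_smul hcc (by positivity)) (hP.cl_smul hvcl (by positivity))
  have hstep2 : ∀ j, (2 : ℝ) • P j - P (j + 1) ∈ closure C := by
    intro j
    have h1 : (2 : ℝ) • P j - P (j + 1) = f + v := by
      simp only [hPdef, pow_succ]; module
    rw [h1]
    exact hP.cl_add hfc hvcl
  have hmono : ∀ j, P j - P 0 ∈ closure C := by
    intro j
    induction j with
    | zero => rw [sub_self]; exact hP.zero_cl
    | succ j ih => exact hP.le_trans ih (hstep j)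
  have hW : LimS (fun m => Wb (Um m) (vm m)) (Wb U v) :=
    hwbl n C Γ hC hyp.maxc Um vm U v hBm hB hlim hv
  have hPW : ∀ j, P j ∈ Wb U v := fun j =>
    ((hwbf n).1 U v (P j)).mpr ⟨_, U.add_mem hfU (U.smul_mem _ hcU), _, rfl⟩
  have hnsf := Pool.Agent.PFJ.H39.nsf n C Γ hC
  have hev : ∀ j, ∀ᶠ m in atTop, NearS C 2 (Wb (Um m) (vm m)) (P j) := fun j =>
    hnsf.2.2.2.2 2 (fun m => Wb (Um m) (vm m)) (Wb U v) (fun _ => P j) (P j) hW (hPC j) (hPW j)
      tendsto_const_nhds (by norm_num)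
  by_cases hall : ∀ᶠ m in atTop, ∀ j : ℕ, NearS C 2 (Wb (Um m) (vm m)) (P j)
  · exact Or.inl hall
  · right
    have hfreq : ∃ᶠ m in atTop, ¬ ∀ j : ℕ, NearS C 2 (Wb (Um m) (vm m)) (P j) :=
      Filter.not_eventually.mp hall
    obtain ⟨φ0, hφ0, hφ0n⟩ := Filter.extraction_of_frequently_atTop hfreq
    have hex : ∀ i, ∃ j : ℕ, ¬ NearS C 2 (Wb (Um (φ0 i)) (vm (φ0 i))) (P j) := fun i => by
      have := hφ0n i
      push Not at this
      exact this
    classical
    choose k0 hk0 hk0min using fun i => (⟨Nat.find (hex i), Nat.find_spec (hex i),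
      fun j hj => Nat.find_min (hex i) hj⟩ : ∃ k : ℕ,
        ¬ NearS C 2 (Wb (Um (φ0 i)) (vm (φ0 i))) (P k) ∧
        ∀ j < k, ¬ ¬ NearS C 2 (Wb (Um (φ0 i)) (vm (φ0 i))) (P j))
    have hk0t : Tendsto k0 atTop atTop := by
      rw [tendsto_atTop]
      intro J
      have h1 : ∀ᶠ m in atTop, ∀ j ∈ Finset.range J, NearS C 2 (Wb (Um m) (vm m)) (P j) := by
        rw [Filter.eventually_all_finset]
        intro j _
        exact hev j
      filter_upwards [hφ0.tendsto_atTop.eventually h1] with i hi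
      by_contra hcon
      push Not at hcon
      exact hk0 i (hi (k0 i) (Finset.mem_range.mpr hcon))
    obtain ⟨i0, hi0⟩ := Filter.eventually_atTop.mp (hk0t.eventually_ge_atTop 1)
    set φ1 : ℕ → ℕ := fun i => φ0 (i + i0) with hφ1
    set k1 : ℕ → ℕ := fun i => k0 (i + i0) with hk1
    have hφ1m : StrictMono φ1 := fun a b hab => hφ0 (by omega)
    have hk1t : Tendsto k1 atTop atTop := hk0t.comp (tendsto_add_atTop_nat i0)
    have hk1pos : ∀ i, 1 ≤ k1 i := fun i => hi0 (i + i0) (by omega)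
    have hnear4 : ∀ i, NearS C 4 (Wb (Um (φ1 i)) (vm (φ1 i))) (P (k1 i)) := by
      intro i
      have h1 : NearS C 2 (Wb (Um (φ1 i)) (vm (φ1 i))) (P (k1 i - 1)) := by
        have h2 := hk0min (i + i0) (k1 i - 1) (by have := hk1pos i; simp only [hk1] at this ⊢; omega)
        push Not at h2
        exact h2
      have h3 : k1 i - 1 + 1 = k1 i := by have := hk1pos i; omega
      have h4 := hstep (k1 i - 1)
      have h5 := hstep2 (k1 i - 1)
      rw [h3] at h4 h5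
      have h6 := hnsf.2.1 2 (Wb (Um (φ1 i)) (vm (φ1 i))) (P (k1 i - 1)) (P (k1 i)) h1 h4 h5
        (by norm_num)
      have h7 : (2 : ℝ) * 2 = 4 := by norm_num
      rwa [h7] at h6
    obtain ⟨φ, g, s, ρ, U1, U2, f1, v1, v2, hφ, hg, hs, hρ, hB1, hd1, hB2, hd2, hu1, ht1, ht2, ht3,
      hl1, hl2, hne⟩ := hzne n C Γ d hyp U v (fun i => Um (φ1 i)) (fun i => vm (φ1 i))
        (fun i => f + (2 : ℝ) ^ (k1 i) • c) (fun i => 1 + (2 : ℝ) ^ (k1 i) * ε) hB hd
        (fun i => hBm _) (fun i => hdm _) (fun i => hunt _) (fun i => hτ _)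
        (fun i => hnear4 i) (fun i => hk0 (i + i0))
    have htP : Tendsto (fun m => s m • act (g m) (P (k1 (φ m)))) atTop (𝓝 (f1 + v1)) := by
      refine (ht1.add ht2).congr fun m => ?_
      simp only [hPdef]
      rw [← smul_add, ← CC.act_add]
    obtain ⟨hT1, hT2⟩ := htrf n C Γ hC (P 0) (f1 + v1) (fun m => P (k1 (φ m))) g s (hPC 0)
      (fun m => hmono _) hg hs htP
    exact ⟨fun m => φ1 (φ m), fun m => k1 (φ m), g, s, ρ, U1, U2, f1, v1, v2, hφ1m.comp hφ,
      hk1t.comp hφ.tendsto_atTop, hg, hs, hρ, hB1, hd1, hB2, hd2, hu1, ht1, ht2, ht3, hl1, hl2,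
      hne, hT1, hT2⟩

end Pool.Agent.PCO.H19
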